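import Pool.Agent.TH866.SR.Sieve

/-!
# Upper bound sieve weights for an arbitrary set of primes: existence
-/

set_option autoImplicit false

namespace Pool.Agent.TH866.SR

open Finset Filter NumberField Pool.Agent.H38R2.CG Pool.Agent.H38R2.CG2
open scoped Classical

lemma GGq_eq {Q : Set ℕ} {z X : ℕ} {a δ : ℝ} : GG X (rq Q z a X δ) =
    ∑ d ∈ Finset.Icc 1 X, rhoB X (bq Q z a X δ) (fun j => j + 1) d *
      ∏ p ∈ d.primeFactors, ((fun p : ℕ => (1 : ℝ) / p) p) := by
  unfold GG rq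
  apply Finset.sum_congr rfl
  intro d hd
  by_cases h : Squarefree d
  · have e : ∏ p ∈ d.primeFactors, ((1 : ℝ) / p) = 1 / d := by
      rw [Finset.prod_div_distrib, Finset.prod_const_one]
      congr 1
      rw [← Nat.cast_prod, Nat.prod_primeFactors_of_squarefree h]
    simp only
    rw [e]; ring
  · have e : rhoB X (bq Q z a X δ) (fun j => j + 1) d = 0 := by
      unfold rhoB
      rw [if_neg]
      tauto
    rw [e]; simp

theorem BHq (hBF : P2_BF) (hHB : P2_HB) (hHD : P2_HD) (hCH : P2_CH) (hBHa : P2_BHa) :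
    ∀ δ : ℝ, 0 < δ → δ ≤ 1 → ∃ C0 : ℕ, 1 ≤ C0 ∧ ∀ z : ℕ, 2 ≤ z → ∀ a : ℝ, 2 < a →
      ∃ X0 : ℕ, ∀ X ≥ X0, ∀ Q : Set ℕ, SWt z X (PA a X) δ C0 (rq Q z a X δ) ∧
        rq Q z a X δ 1 = 1 ∧ GG X (rq Q z a X δ) * pq Q z ≤ C0 * pq Q X := by
  intro δ hδ hδ1
  obtain ⟨L, hL0, hL1, hL2, -⟩ := hCH
  obtain ⟨K, hK⟩ := pow_unbounded_of_one_lt (Real.exp (2 * L)) (by norm_num : (1 : ℝ) < 2)
  obtain ⟨m, hm⟩ := pow_unbounded_of_one_lt (8 / δ) (by norm_num : (1 : ℝ) < 2)
  set E : ℝ := Real.exp (2 * L) with hE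
  set CC : ℝ := Real.exp (E * Real.exp L) * E * Real.exp (2 * (m * L)) with hCC
  have hCCpos : 0 < CC := by positivity
  refine ⟨2 * K + ⌈CC⌉₊ + 1 + ⌈Real.exp (3 * L)⌉₊, by omega, ?_⟩
  intro z hz a ha
  have htend : Tendsto (fun X : ℕ => (X : ℝ) ^ (δ / 16)) atTop atTop :=
    (tendsto_rpow_atTop (by positivity)).comp tendsto_natCast_atTop_atTop
  have hev := (htend.eventually_ge_atTop (max 2 (z + 1 : ℝ))).and (eventually_ge_atTop 8)
  obtain ⟨X0, hX0⟩ := Filter.eventually_atTop.mp hev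
  refine ⟨X0, ?_⟩
  intro X hX Q
  obtain ⟨hXa, hX8⟩ := hX0 X hX
  have hX1 : 1 ≤ X := by omega
  have hX1' : 1 ≤ X := hX1
  have hX3 : 3 ≤ X := by omega
  have hXpos : (0 : ℝ) < X := by positivity
  have hXR : (1 : ℝ) ≤ X := by exact_mod_cast hX1
  have hlog2 : 2 ≤ Real.log X := by
    have h1 : Real.log 8 ≤ Real.log X := Real.log_le_log (by norm_num) (by exact_mod_cast hX8)
    have h2 : Real.log 8 = 3 * Real.log 2 := by
      rw [show (8 : ℝ) = 2 ^ (3 : ℕ) by norm_num, Real.log_pow]; norm_num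
    linarith [Real.log_two_gt_d9]
  -- basic facts on the blocks
  have hprime : ∀ j < X, ∀ p ∈ bq Q z a X δ j, p.Prime :=
    fun j _ p hp => BHch.blk_prime (bq_sub _ _ _ _ _ _ hp)
  have hdisj : ∀ i < X, ∀ j < X, i ≠ j → Disjoint (bq Q z a X δ i) (bq Q z a X δ j) :=
    fun i _ j _ h => Finset.disjoint_of_subset_left (bq_sub _ _ _ _ _ _)
      (Finset.disjoint_of_subset_right (bq_sub _ _ _ _ _ _) (BHch.blk_disj hX1 hδ i j h))
  have hlev : ∀ d, rq Q z a X δ d ≠ 0 → (d : ℝ) ≤ (X : ℝ) ^ δ := by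
    intro d hd
    exact hBHa z a X δ d hz hX1 hδ (rq_ne hX1 hδ hd).1
  have hsupp : ∀ d, rhoB X (bq Q z a X δ) (fun j => j + 1) d ≠ 0 → d ≤ X := by
    intro d hd
    have h1 := hlev d hd
    have h2 : (X : ℝ) ^ δ ≤ (X : ℝ) ^ (1 : ℝ) :=
      Real.rpow_le_rpow_of_exponent_le hXR hδ1
    rw [Real.rpow_one] at h2
    exact_mod_cast h1.trans h2
  -- the product formula
  set V : ℕ → ℝ := fun j => ∏ p ∈ bq Q z a X δ j, (1 - (1 : ℝ) / p) with hV
  set T : ℕ → ℝ := fun j => ∑ A ∈ (bq Q z a X δ j).powerset.filter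
    (fun A => A.card ≤ 2 * (j + 1)), (-1 : ℝ) ^ A.card * ∏ p ∈ A, ((1 : ℝ) / p) with hT
  have hGG : GG X (rq Q z a X δ) = ∏ j ∈ Finset.range X, T j := by
    rw [GGq_eq]
    exact hHB X X (bq Q z a X δ) (fun j => j + 1) (fun p => (1 : ℝ) / p) hprime hdisj hsupp
  have hpr : ∀ j, ∀ p ∈ bq Q z a X δ j, p.Prime :=
    fun j p hp => BHch.blk_prime (bq_sub _ _ _ _ _ _ hp)
  have hS : ∀ j, ∑ p ∈ bq Q z a X δ j, (1 : ℝ) / p ≤ L := fun j =>
    (Finset.sum_le_sum_of_subset_of_nonneg (bq_sub _ _ _ _ _ _) (fun p _ _ => by positivity)).trans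
      (BHch.blk_sum hX1 hδ hL1 j)
  have hS0 : ∀ j, 0 ≤ ∑ p ∈ bq Q z a X δ j, (1 : ℝ) / p :=
    fun j => Finset.sum_nonneg (fun p _ => by positivity)
  have hVT : ∀ j, V j ≤ T j ∧ T j ≤ V j + (∑ p ∈ bq Q z a X δ j, (1 : ℝ) / p) ^
      (2 * (j + 1) + 1) / ((2 * (j + 1) + 1).factorial : ℝ) := by
    intro j
    have := hBF (bq Q z a X δ j) (fun p => (1 : ℝ) / p) (j + 1) (fun p hp => by
      have := BHch.inv_le_half (hpr j p hp)
      exact ⟨this.1, by linarith [this.2]⟩)
    exact this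
  have hVge : ∀ j, Real.exp (-(2 * L)) ≤ V j :=
    fun j => BHch.prod_ge' _ (hpr j) L (hS j)
  have hVpos : ∀ j, 0 < V j := fun j => lt_of_lt_of_le (Real.exp_pos _) (hVge j)
  have hlow : ((Real.log X) ^ (2 * K))⁻¹ ≤ GG X (rq Q z a X δ) := by
    rw [hGG]
    set M : ℕ := ⌊Real.log X⌋₊ with hM
    set n : ℕ := Nat.log 2 M with hn
    have hM2 : 2 ≤ M := Nat.le_floor (by exact_mod_cast hlog2)
    have hMn : 2 ^ n ≤ M := Nat.pow_log_le_self 2 (by omega)
    have hMlog : (M : ℝ) ≤ Real.log X := Nat.floor_le (by linarith)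
    have h1 : ∏ j ∈ Finset.range X, (if (blk z a X δ j).Nonempty then Real.exp (-(2 * L)) else 1)
        ≤ ∏ j ∈ Finset.range X, T j := by
      apply Finset.prod_le_prod
      · intro j _
        split_ifs
        · exact (Real.exp_pos _).le
        · norm_num
      · intro j _
        refine le_trans ?_ (hVT j).1
        split_ifs with hne
        · exact hVge j
        · rw [Finset.not_nonempty_iff_eq_empty] at hne
          have hne' : bq Q z a X δ j = ∅ := by
            unfold bq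
            rw [hne, Finset.filter_empty]
          simp only [hV, hne', Finset.prod_empty, le_refl]
    refine le_trans ?_ h1
    rw [← Finset.prod_filter, Finset.prod_const]
    have hcard : ((Finset.range X).filter (fun j => (blk z a X δ j).Nonempty)).card ≤ n + 1 := by
      have hsub : (Finset.range X).filter (fun j => (blk z a X δ j).Nonempty) ⊆
          Finset.range (n + 1) := by
        intro j hj
        rw [Finset.mem_filter] at hj
        have h2 := BHch.nonempty_bd hX3 hδ hδ1 j hj.2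
        have h3 : 2 ^ j ≤ M := Nat.le_floor (by push_cast; exact h2)
        rw [Finset.mem_range]
        have := Nat.le_log_of_pow_le (by norm_num : 1 < 2) h3
        omega
      calc _ ≤ (Finset.range (n + 1)).card := Finset.card_le_card hsub
        _ = n + 1 := Finset.card_range _
    have hexp1 : Real.exp (-(2 * L)) ≤ 1 := by
      rw [Real.exp_le_one_iff]; linarith
    have h4 : Real.exp (-(2 * L)) ^ (n + 1) ≤ Real.exp (-(2 * L)) ^
        ((Finset.range X).filter (fun j => (blk z a X δ j).Nonempty)).card :=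
      pow_le_pow_of_le_one (Real.exp_pos _).le hexp1 hcard
    refine le_trans ?_ h4
    rw [Real.exp_neg, inv_pow]
    apply inv_anti₀ (by positivity)
    have h5 : (2 : ℝ) ^ (n + 1) ≤ (Real.log X) ^ 2 := by
      have : (2 : ℝ) ^ n ≤ Real.log X := le_trans (by exact_mod_cast hMn) hMlog
      rw [pow_succ, sq]
      nlinarith
    calc Real.exp (2 * L) ^ (n + 1) ≤ (2 ^ K) ^ (n + 1) :=
          pow_le_pow_left₀ (Real.exp_pos _).le hK.le _
      _ = (2 ^ (n + 1)) ^ K := by rw [← pow_mul, ← pow_mul, mul_comm]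
      _ ≤ ((Real.log X) ^ 2) ^ K := pow_le_pow_left₀ (by positivity) h5 _
      _ = (Real.log X) ^ (2 * K) := by rw [← pow_mul]
  have hup : GG X (rq Q z a X δ) * pq Q z ≤ CC * pq Q X := by
    rw [hGG]
    have hTV : ∀ j, T j ≤ V j * Real.exp (E * (L ^ (2 * (j + 1) + 1) /
        ((2 * (j + 1) + 1).factorial : ℝ))) := by
      intro j
      have h1 := (hVT j).2
      have h2 : (∑ p ∈ bq Q z a X δ j, (1 : ℝ) / p) ^ (2 * (j + 1) + 1) ≤
          L ^ (2 * (j + 1) + 1) := pow_le_pow_left₀ (hS0 j) (hS j) _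
      have h3 : 1 ≤ V j * E := by
        have : Real.exp (-(2 * L)) * E = 1 := by rw [hE, ← Real.exp_add]; simp
        calc (1 : ℝ) = Real.exp (-(2 * L)) * E := this.symm
          _ ≤ V j * E := mul_le_mul_of_nonneg_right (hVge j) (Real.exp_pos _).le
      set f : ℝ := ((2 * (j + 1) + 1).factorial : ℝ) with hf
      have hfpos : 0 < f := by
        rw [hf]; exact_mod_cast Nat.factorial_pos _
      set q : ℝ := L ^ (2 * (j + 1) + 1) / f with hq
      have hq0 : 0 ≤ q := by positivity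
      have h4 : (∑ p ∈ bq Q z a X δ j, (1 : ℝ) / p) ^ (2 * (j + 1) + 1) / f ≤ q :=
        div_le_div_of_nonneg_right h2 hfpos.le
      have h5 : q ≤ V j * E * q := le_mul_of_one_le_left hq0 h3
      have h6 := Real.add_one_le_exp (E * q)
      have h7 := mul_le_mul_of_nonneg_left h6 (hVpos j).le
      nlinarith
    have hprod : ∏ j ∈ Finset.range X, T j ≤
        (∏ j ∈ Finset.range X, V j) * Real.exp (E * Real.exp L) := by
      calc ∏ j ∈ Finset.range X, T j ≤ ∏ j ∈ Finset.range X, (V j * Real.exp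
            (E * (L ^ (2 * (j + 1) + 1) / ((2 * (j + 1) + 1).factorial : ℝ)))) :=
            Finset.prod_le_prod (fun j _ => le_trans (hVpos j).le (hVT j).1) (fun j _ => hTV j)
        _ = (∏ j ∈ Finset.range X, V j) * Real.exp (E * ∑ j ∈ Finset.range X,
            L ^ (2 * (j + 1) + 1) / ((2 * (j + 1) + 1).factorial : ℝ)) := by
            rw [Finset.prod_mul_distrib, Finset.mul_sum, Real.exp_sum]
        _ ≤ _ := by
            apply mul_le_mul_of_nonneg_left _ (Finset.prod_nonneg (fun j _ => (hVpos j).le))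
            apply Real.exp_le_exp.mpr
            exact mul_le_mul_of_nonneg_left (BHch.sum_fact L hL0.le X) (Real.exp_pos _).le
    -- the product of the V_j
    set N : ℕ := ⌊(X : ℝ) ^ (δ / 8)⌋₊ with hN
    set A : Finset ℕ := (Finset.Icc 3 X).filter (fun q => q.Prime ∧ q ∈ Q) with hA
    have hAp : ∀ p ∈ A, p.Prime := fun p hp => (Finset.mem_filter.mp hp).2.1
    set W : Finset ℕ := A.filter (fun p => z < p ∧ p ∉ PA a X ∧ p ≤ N) with hW
    have hU : ∏ j ∈ Finset.range X, V j ≤ ∏ p ∈ W, (1 - (1 : ℝ) / p) := by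
      have h1 : ∏ j ∈ Finset.range X, V j =
          ∏ p ∈ (Finset.range X).biUnion (bq Q z a X δ), (1 - (1 : ℝ) / p) := by
        rw [Finset.prod_biUnion]
        intro i hi j hj hij
        exact hdisj i (Finset.mem_range.1 hi) j (Finset.mem_range.1 hj) hij
      rw [h1]
      apply BHch.prod_anti
      · intro p hp
        rw [hW, Finset.mem_filter, hA, Finset.mem_filter, Finset.mem_Icc] at hp
        obtain ⟨j, hj, hpj⟩ := BHch.cover hX3 hδ hδ1 hp.1.2.1 hp.2.1 hp.2.2.1 hp.2.2.2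
        rw [Finset.mem_biUnion]
        refine ⟨j, Finset.mem_range.mpr hj, ?_⟩
        unfold bq
        rw [Finset.mem_filter]
        exact ⟨hpj, hp.1.2.2⟩
      · intro p hp
        rw [Finset.mem_biUnion] at hp
        obtain ⟨j, _, hpj⟩ := hp
        exact hpr j p hpj
    -- the other primes
    set A1 : Finset ℕ := A.filter (fun p => p ≤ z) with hA1
    set A2 : Finset ℕ := (A.filter (fun p => ¬ p ≤ z)).filter (fun p => p ∈ PA a X) with hA2
    set A3 : Finset ℕ := ((A.filter (fun p => ¬ p ≤ z)).filter (fun p => ¬ p ∈ PA a X)).filter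
      (fun p => p ≤ N) with hA3
    set A4 : Finset ℕ := ((A.filter (fun p => ¬ p ≤ z)).filter (fun p => ¬ p ∈ PA a X)).filter
      (fun p => ¬ p ≤ N) with hA4
    have hsplit : pq Q X = (∏ p ∈ A1, (1 - (1 : ℝ) / p)) * ((∏ p ∈ A2, (1 - (1 : ℝ) / p)) *
        ((∏ p ∈ A3, (1 - (1 : ℝ) / p)) * ∏ p ∈ A4, (1 - (1 : ℝ) / p))) := by
      unfold pq
      rw [← hA, ← Finset.prod_filter_mul_prod_filter_not A (fun p => p ≤ z),
        ← Finset.prod_filter_mul_prod_filter_not (A.filter (fun p => ¬ p ≤ z))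
          (fun p => p ∈ PA a X),
        ← Finset.prod_filter_mul_prod_filter_not ((A.filter (fun p => ¬ p ≤ z)).filter
          (fun p => ¬ p ∈ PA a X)) (fun p => p ≤ N)]
    have hz1 : pq Q z ≤ ∏ p ∈ A1, (1 - (1 : ℝ) / p) := by
      apply BHch.prod_anti
      · intro p hp
        rw [hA1, hA, Finset.mem_filter, Finset.mem_filter, Finset.mem_Icc] at hp
        rw [Finset.mem_filter, Finset.mem_Icc]
        exact ⟨⟨hp.1.1.1, hp.2⟩, hp.1.2⟩
      · intro p hp
        exact (Finset.mem_filter.mp hp).2.1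
    have hW3 : ∏ p ∈ W, (1 - (1 : ℝ) / p) = ∏ p ∈ A3, (1 - (1 : ℝ) / p) := by
      apply Finset.prod_congr _ (fun _ _ => rfl)
      ext p
      simp only [hW, hA3, Finset.mem_filter, not_le]
      tauto
    have h2 : Real.exp (-(2 * L)) ≤ ∏ p ∈ A2, (1 - (1 : ℝ) / p) := by
      apply BHch.prod_ge'
      · intro p hp
        exact hAp p (Finset.mem_filter.mp (Finset.mem_filter.mp hp).1).1
      · refine le_trans ?_ (hL2 (yA a X))
        apply Finset.sum_le_sum_of_subset_of_nonneg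
        · intro p hp
          exact (Finset.mem_filter.mp hp).2
        · intro p _ _
          positivity
    have h4 : Real.exp (-(2 * (m * L))) ≤ ∏ p ∈ A4, (1 - (1 : ℝ) / p) := by
      apply BHch.prod_ge'
      · intro p hp
        exact hAp p (Finset.mem_filter.mp (Finset.mem_filter.mp (Finset.mem_filter.mp hp).1).1).1
      · refine le_trans ?_ (sum_tail hL1 X hX1 m)
        apply Finset.sum_le_sum_of_subset_of_nonneg
        · intro p hp
          have hpA := (Finset.mem_filter.mp (Finset.mem_filter.mp (Finset.mem_filter.mp hp).1).1).1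
          have hpN := (Finset.mem_filter.mp hp).2
          rw [hA, Finset.mem_filter, Finset.mem_Icc] at hpA
          rw [Finset.mem_filter, Finset.mem_Ioc]
          refine ⟨⟨?_, hpA.1.2⟩, hpA.2.1⟩
          have hle : ⌊(X : ℝ) ^ ((1 : ℝ) / 2 ^ m)⌋₊ ≤ N := by
            apply Nat.floor_le_floor
            apply Real.rpow_le_rpow_of_exponent_le hXR
            rw [div_le_div_iff₀ (by positivity) (by norm_num)]
            have h8 : 8 < 2 ^ m * δ := by rwa [div_lt_iff₀ hδ] at hm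
            linarith
          omega
        · intro p _ _
          positivity
    have hA1pos : 0 < ∏ p ∈ A1, (1 - (1 : ℝ) / p) :=
      BHch.prod_pos' _ (fun p hp => hAp p (Finset.mem_filter.mp hp).1)
    have hA2pos : 0 < ∏ p ∈ A2, (1 - (1 : ℝ) / p) := lt_of_lt_of_le (Real.exp_pos _) h2
    have hA4pos : 0 < ∏ p ∈ A4, (1 - (1 : ℝ) / p) := lt_of_lt_of_le (Real.exp_pos _) h4
    have hA3pos : 0 < ∏ p ∈ A3, (1 - (1 : ℝ) / p) :=
      BHch.prod_pos' _ (fun p hp => hAp p
        (Finset.mem_filter.mp (Finset.mem_filter.mp (Finset.mem_filter.mp hp).1).1).1)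
    have hz0 := pq_pos Q z
    have hE2 : 1 ≤ E * ∏ p ∈ A2, (1 - (1 : ℝ) / p) := by
      have : E * Real.exp (-(2 * L)) = 1 := by rw [hE, ← Real.exp_add]; simp
      calc (1 : ℝ) = E * Real.exp (-(2 * L)) := this.symm
        _ ≤ _ := mul_le_mul_of_nonneg_left h2 (Real.exp_pos _).le
    have hE4 : 1 ≤ Real.exp (2 * (m * L)) * ∏ p ∈ A4, (1 - (1 : ℝ) / p) := by
      have : Real.exp (2 * (m * L)) * Real.exp (-(2 * (m * L))) = 1 := by
        rw [← Real.exp_add]; simp
      calc (1 : ℝ) = Real.exp (2 * (m * L)) * Real.exp (-(2 * (m * L))) := this.symm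
        _ ≤ _ := mul_le_mul_of_nonneg_left h4 (Real.exp_pos _).le
    set P1 := ∏ p ∈ A1, (1 - (1 : ℝ) / p) with hP1
    set P2 := ∏ p ∈ A2, (1 - (1 : ℝ) / p) with hP2
    set P3 := ∏ p ∈ A3, (1 - (1 : ℝ) / p) with hP3
    set P4 := ∏ p ∈ A4, (1 - (1 : ℝ) / p) with hP4
    calc (∏ j ∈ Finset.range X, T j) * pq Q z
        ≤ ((∏ j ∈ Finset.range X, V j) * Real.exp (E * Real.exp L)) * pq Q z :=
          mul_le_mul_of_nonneg_right hprod hz0.le
      _ ≤ (P3 * Real.exp (E * Real.exp L)) * P1 := by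
          apply mul_le_mul _ hz1 hz0.le (by positivity)
          exact mul_le_mul_of_nonneg_right (hU.trans (le_of_eq hW3)) (Real.exp_pos _).le
      _ = Real.exp (E * Real.exp L) * (P1 * P3) * 1 * 1 := by ring
      _ ≤ Real.exp (E * Real.exp L) * (P1 * P3) * (E * P2) * (Real.exp (2 * (m * L)) * P4) := by
          apply mul_le_mul _ hE4 zero_le_one (by positivity)
          exact mul_le_mul_of_nonneg_left hE2 (by positivity)
      _ = CC * pq Q X := by rw [hsplit, hCC]; ring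
  refine ⟨⟨?_, ?_, ?_, ?_, ?_⟩, ?_, ?_⟩
  · intro d hd
    have hd' := rq_ne hX1 hδ hd
    have h1 := BHh.rhoB_ne _ _ _ _ hd
    have hd0 : d ≠ 0 := h1.1.ne_zero
    refine ⟨Nat.one_le_iff_ne_zero.2 hd0, hlev d hd, h1.1, ?_, ?_⟩
    · by_contra hcop
      obtain ⟨p, hp, hpd, hpQ⟩ := Nat.Prime.not_coprime_iff_dvd.1 hcop
      obtain ⟨j, _, hj⟩ := h1.2 p (Nat.mem_primeFactors.2 ⟨hp, hpd, hd0⟩)
      have h3 := (BHh.mem_blk (bq_sub _ _ _ _ _ _ hj)).2.2.2.1
      have h4 := BHh.prime_dvd_Qz z p hz hp hpQ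
      omega
    · intro p hp hpd
      have hpp : p.Prime := by
        unfold PA PP at hp
        exact (mem_filter.1 hp).2
      obtain ⟨j, _, hj⟩ := h1.2 p (Nat.mem_primeFactors.2 ⟨hpp, hpd, hd0⟩)
      exact (BHh.mem_blk (bq_sub _ _ _ _ _ _ hj)).2.2.2.2 hp
  · intro d
    exact BHh.rhoB_abs _ _ _ _
  · refine le_trans ?_ hlow
    apply inv_anti₀ (by positivity)
    exact pow_le_pow_right₀ (by linarith) (by omega)
  · intro g hg
    refine hHD X X (bq Q z a X δ) (fun j => j + 1) L _ hL0.le hprime hdisj hsupp ?_ ?_ g hg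
    · intro j _
      exact hS j
    · push_cast
      have h1 := Nat.le_ceil (Real.exp (3 * L))
      have h2 : (0 : ℝ) ≤ K := by positivity
      have h3 : (0 : ℝ) ≤ ⌈CC⌉₊ := by positivity
      linarith
  · intro x hx
    have h1 := hHB X X (bq Q z a X δ) (fun j => j + 1) x hprime hdisj hsupp
    have h2 : 0 ≤ ∏ j ∈ Finset.range X, ∑ A ∈ (bq Q z a X δ j).powerset.filter
        (fun A => A.card ≤ 2 * (j + 1)), (-1 : ℝ) ^ A.card * ∏ p ∈ A, x p := by
      apply Finset.prod_nonneg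
      intro j _
      refine le_trans ?_ (hBF (bq Q z a X δ j) x (j + 1) (fun p _ => hx p)).1
      apply Finset.prod_nonneg
      intro p _
      linarith [(hx p).2]
    rw [← h1] at h2
    exact h2
  · exact BHh.rhoB_one _ _ _
  · refine hup.trans ?_
    apply mul_le_mul_of_nonneg_right _ (pq_pos Q X).le
    push_cast
    have h1 := Nat.le_ceil CC
    have h2 : (0 : ℝ) ≤ K := by positivity
    have h3 : (0 : ℝ) ≤ ⌈Real.exp (3 * L)⌉₊ := by positivity
    linarith

end Pool.Agent.TH866.SR
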